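import Mathlib
import Pool.Agent.H.MP_8fe0b8_an.A

open Set Metric Complex ComplexConjugate Filter Topology Finset
open scoped ENNReal

namespace Pool.Agent.Results.MP_8fe0b8_an.Holds

open Pool.Agent.H.MP_8fe0b8_an

/-- `f = h + conj g` lies in the class `ℱ_K`: `h = ∑ a n z ^ n` and `g = ∑ b n z ^ n` are analytic
in the unit disk and vanish at `0`, `h` is bounded and `|g'| ≤ k |h'|`, `k = (K-1)/(K+1)`. -/
def InF (K : ℝ) (h g : ℂ → ℂ) (a b : ℕ → ℂ) : Prop :=
  DifferentiableOn ℂ h (ball 0 1) ∧ DifferentiableOn ℂ g (ball 0 1) ∧ a 0 = 0 ∧ b 0 = 0 ∧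
  (∀ z ∈ ball (0 : ℂ) 1, HasSum (fun n => a n * z ^ n) (h z)) ∧
  (∀ z ∈ ball (0 : ℂ) 1, HasSum (fun n => b n * z ^ n) (g z)) ∧
  (∃ M : ℝ, ∀ z ∈ ball (0 : ℂ) 1, ‖h z‖ ≤ M) ∧
  ∀ z ∈ ball (0 : ℂ) 1, ‖deriv g z‖ ≤ (K - 1) / (K + 1) * ‖deriv h z‖

/-- The sup norm on the unit disk. -/
noncomputable def supNorm (h : ℂ → ℂ) : ℝ≥0∞ := ⨆ z ∈ ball (0 : ℂ) 1, ‖h z‖ₑ

/-- The majorant series `∑ (|a n| + |b n|) r ^ n`, with values in `[0, ∞]`. -/
noncomputable def maj (a b : ℕ → ℂ) (r : ℝ) : ℝ≥0∞ :=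
  ∑' n, ENNReal.ofReal ((‖a n‖ + ‖b n‖) * r ^ n)

/-- The radius `r_K`. -/
noncomputable def rK (K : ℝ) : ℝ := 1 / 4 * √(7 / 2 - 1 / (2 * K ^ 2) + 5 / K)

lemma cf_of {F : ℂ → ℂ} {c : ℕ → ℂ} (hF : DifferentiableOn ℂ F (ball 0 1))
    (hs : ∀ z ∈ ball (0 : ℂ) 1, HasSum (fun n => c n * z ^ n) (F z)) : Cf F c := by
  intro N
  have hp : HasFPowerSeriesAt F (FormalMultilinearSeries.ofScalars ℂ c) 0 := by
    rw [hasFPowerSeriesAt_iff']
    filter_upwards [ball_mem_nhds (0 : ℂ) one_pos] with z hz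
    simpa [FormalMultilinearSeries.coeff_ofScalars, mul_comm] using hs z hz
  simpa [FormalMultilinearSeries.coeff_ofScalars] using cf_of_series N hF hp

lemma cf_mul {F : ℂ → ℂ} {c : ℕ → ℂ} (h : Cf F c) (k : ℂ) :
    Cf (fun z => k * F z) (fun n => k * c n) := by
  intro N
  obtain ⟨R, hR, e⟩ := h N
  refine ⟨fun z => k * R z, hR.const_mul k, fun z hz => ?_⟩
  simp only [e z hz, mul_add, mul_sum, mul_assoc]; ring

lemma cf_add {F G : ℂ → ℂ} {c d : ℕ → ℂ} (h : Cf F c) (h' : Cf G d) :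
    Cf (fun z => F z + G z) (fun n => c n + d n) := by
  intro N
  obtain ⟨R, hR, e⟩ := h N
  obtain ⟨S, hS, e'⟩ := h' N
  refine ⟨fun z => R z + S z, hR.add hS, fun z hz => ?_⟩
  simp only [e z hz, e' z hz, add_mul, sum_add_distrib]; ring

lemma cf_shift {F : ℂ → ℂ} {c : ℕ → ℂ} (h : Cf F c) :
    Cf (fun z => z * F z) (fun n => Nat.casesOn n 0 c) := by
  intro N
  cases N with
  | zero => exact ⟨_, differentiableOn_id.mul h.diff, fun z _ => by simp⟩
  | succ N =>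
    obtain ⟨R, hR, e⟩ := h N
    refine ⟨R, hR, fun z hz => ?_⟩
    simp only [e z hz, sum_range_succ', mul_add, mul_sum, Nat.rec_zero, zero_mul, add_zero]
    congr 1
    · exact sum_congr rfl fun j _ => by ring
    · ring

lemma cf_id : Cf (fun z => z) (fun n => if n = 1 then 1 else 0) :=
  cf_of differentiableOn_id fun z _ => by
    have := hasSum_single (f := fun n => (if n = 1 then (1 : ℂ) else 0) * z ^ n) 1
      (fun n hn => by simp [hn])
    rwa [if_pos rfl, one_mul, pow_one] at this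

lemma boundA {h : ℂ → ℂ} {a : ℕ → ℂ} (hc : Cf h a) (a0 : a 0 = 0)
    (hb : ∀ z ∈ ball (0 : ℂ) 1, ‖h z‖ ≤ 1) : ‖a 1‖ ≤ 1 ∧ ∀ t, 0 ≤ t → t ≤ 1 → ∀ N,
      (∑ n ∈ range N, t ^ n * ‖a (n + 2)‖ ^ 2) * (1 - ‖a 1‖ ^ 2 * t) ≤ (1 - ‖a 1‖ ^ 2) ^ 2 := by
  have h0 : h 0 = 0 := by
    obtain ⟨R, -, e⟩ := hc 1
    simpa [a0] using e 0 (mem_ball_self one_pos)
  have hm : MapsTo h (ball 0 1) (closedBall 0 1) := fun z hz => mem_closedBall_zero_iff.2 (hb z hz)
  have P : ∀ N, ‖a 1‖ ^ 2 + ∑ n ∈ range N, ‖a (n + 2)‖ ^ 2 ≤ 1 := fun N => by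
    have := dom hc cf_id (fun z hz => norm_le_norm_of_mapsTo_ball hc.diff hm h0
      (mem_ball_zero_iff.1 hz)) (N + 2)
    simp only [sum_range_succ'] at this
    simp [a0] at this
    linarith
  have a1 : ‖a 1‖ ≤ 1 := by
    have := P 0
    simp only [range_zero, sum_empty, add_zero] at this
    nlinarith [norm_nonneg (a 1)]
  refine ⟨a1, fun t t0 t1 N => ?_⟩
  rcases a1.eq_or_lt with e1 | l1
  · have : ∀ n ∈ range N, t ^ n * ‖a (n + 2)‖ ^ 2 = 0 := fun n hn => by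
      have h1 := P N
      have h2 := single_le_sum (f := fun n => ‖a (n + 2)‖ ^ 2) (fun _ _ => sq_nonneg _) hn
      rw [e1] at h1
      rw [le_antisymm (by linarith) (sq_nonneg ‖a (n + 2)‖), mul_zero]
    rw [sum_eq_zero this, zero_mul]; positivity
  set B := dslope h 0 with hB
  have hBd : DifferentiableOn ℂ B (ball 0 1) :=
    (differentiableOn_dslope (ball_mem_nhds 0 one_pos)).2 hc.diff
  have hB1 : ∀ z ∈ ball (0 : ℂ) 1, ‖B z‖ ≤ 1 := fun z hz => by
    simpa using norm_dslope_le_div_of_mapsTo_ball hc.diff (by rwa [h0]) hz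
  have hB0 : B 0 = a 1 := by
    obtain ⟨R, -, e⟩ := hc.deriv 1
    simpa [hB] using e 0 (mem_ball_self one_pos)
  have hzB : ∀ z, h z = z * B z := fun z => by
    have := sub_smul_dslope h 0 z
    rw [h0, sub_zero, sub_zero, smul_eq_mul] at this; exact this.symm
  have hne : ∀ z ∈ ball (0 : ℂ) 1, 1 - conj (a 1) * B z ≠ 0 := fun z hz e => by
    have : ‖conj (a 1) * B z‖ = 1 := by rw [← sub_eq_zero.1 e]; simp
    rw [norm_mul, Complex.norm_conj] at this
    nlinarith [hB1 z hz, norm_nonneg (a 1), norm_nonneg (B z)]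
  have hω : ∀ z ∈ ball (0 : ℂ) 1, ‖(B z - a 1) / (1 - conj (a 1) * B z)‖ ≤ ‖z‖ := fun z hz => by
    refine norm_le_norm_of_mapsTo_ball (f := fun z => (B z - a 1) / (1 - conj (a 1) * B z))
      ((hBd.sub_const _).div ((hBd.const_mul _).const_sub _) hne) (fun w hw => ?_)
      (by simp [hB0]) (mem_ball_zero_iff.1 hz)
    rw [mem_closedBall_zero_iff, norm_div]
    refine div_le_one_of_le₀ (abs_le_of_sq_le_sq' ?_ (norm_nonneg _)).2 (norm_nonneg _)
    have e : normSq (1 - conj (a 1) * B w) - normSq (B w - a 1)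
        = (1 - normSq (a 1)) * (1 - normSq (B w)) := by
      simp only [normSq_apply, sub_re, sub_im, mul_re, mul_im, one_re, one_im, conj_re, conj_im]
      ring
    simp only [normSq_eq_norm_sq] at e
    have p1 : 0 ≤ 1 - ‖a 1‖ ^ 2 := by nlinarith [norm_nonneg (a 1)]
    have p2 : 0 ≤ 1 - ‖B w‖ ^ 2 := by nlinarith [norm_nonneg (B w), hB1 w hw]
    linarith [mul_nonneg p1 p2]
  have D := dom (cf_add hc (cf_mul cf_id (-a 1)))
    (cf_shift (cf_add cf_id (cf_mul hc (-conj (a 1))))) (fun z hz => by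
      have := hω z hz
      rw [norm_div, div_le_iff₀ (norm_pos_iff.2 (hne z hz))] at this
      rw [hzB z, show z * B z + -a 1 * z = z * (B z - a 1) by ring,
        show z * (z + -conj (a 1) * (z * B z)) = z * (z * (1 - conj (a 1) * B z)) by ring,
        norm_mul, norm_mul, norm_mul]
      gcongr)
  set u : ℕ → ℝ := fun n => Nat.casesOn n ((1 - ‖a 1‖ ^ 2) ^ 2)
    fun m => ‖a 1‖ ^ 2 * ‖a (m + 2)‖ ^ 2 with hu
  have hx : ∀ M, 0 ≤ ∑ n ∈ range M, (u n - ‖a (n + 2)‖ ^ 2) := fun M => by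
    have := D (M + 2)
    rw [sum_range_succ', sum_range_succ', sum_range_succ', sum_range_succ'] at this
    rw [sum_sub_distrib, sub_nonneg]
    simp only [a0, zero_add, if_true, zero_ne_one, if_false, mul_one, add_neg_cancel, norm_zero,
      mul_zero, add_zero, Nat.rec_zero, ne_eq, OfNat.ofNat_ne_zero, not_false_eq_true,
      zero_pow] at this
    refine le_trans (le_of_eq (sum_congr rfl fun n _ => ?_))
      (this.trans (le_of_eq (sum_congr rfl fun n _ => ?_)))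
    · simp
    · cases n with
      | zero =>
        simp only [hu, zero_add, if_true, Nat.rec_zero]
        rw [neg_mul, mul_comm, mul_conj, normSq_eq_norm_sq, ← sub_eq_add_neg, ← ofReal_one,
          ← ofReal_sub, Complex.norm_real, Real.norm_eq_abs, sq_abs]
      | succ n => simp [hu, mul_pow]
  have := abel hx (w := fun n => t ^ n) (fun n => pow_le_pow_of_le_one t0 t1 (Nat.le_succ n))
    (fun n => pow_nonneg t0 n) (N + 1)
  simp only [mul_sub, sum_sub_distrib] at this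
  rw [sum_range_succ', sum_range_succ] at this
  have e : ∑ n ∈ range N, t ^ (n + 1) * u (n + 1)
      = (∑ n ∈ range N, t ^ n * ‖a (n + 2)‖ ^ 2) * (‖a 1‖ ^ 2 * t) := by
    rw [sum_mul]; exact sum_congr rfl fun n _ => by simp only [hu]; ring
  rw [e] at this
  simp only [hu, pow_zero, one_mul, Nat.rec_zero] at this
  have : 0 ≤ t ^ N * ‖a (N + 2)‖ ^ 2 := by positivity
  linarith

lemma numeric {α r c : ℝ} (a0 : 0 ≤ α) (a1 : α ≤ 1) (r0 : 0 < r) (c0 : 1 / 2 ≤ c) (c1 : c ≤ 1)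
    (hr : 8 * r ^ 2 ≤ 6 * c - 1 - c ^ 2) : ∃ t l : ℝ, 0 < t ∧ t ≤ 1 ∧ r ^ 2 < t ∧ 0 < l ∧
      l * α * t ^ 2 ≤ 4 * r ∧ ∀ T, T * (1 - α ^ 2 * t) ≤ (1 - α ^ 2) ^ 2 →
        α * r + l * t ^ 2 * T / 2 + (r ^ 2 / t) ^ 2 / (1 - r ^ 2 / t) / (2 * l) ≤ c := by
  have r2 : r ^ 2 ≤ 1 / 2 := by nlinarith
  have r1 : r ≤ 71 / 100 := by nlinarith
  rcases lt_or_ge α r with h | h
  · have p : 0 < 1 - r ^ 2 := by linarith
    refine ⟨1, r ^ 2 / (1 - r ^ 2), one_pos, le_rfl, by linarith, by positivity, ?_, fun T hT => ?_⟩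
    · have : r ^ 2 / (1 - r ^ 2) ≤ 1 := by rw [div_le_one p]; linarith
      nlinarith
    · have pa : 0 < 1 - α ^ 2 := by nlinarith
      have hT' : T ≤ 1 - α ^ 2 := by nlinarith
      have h2 : 2 * r ^ 2 ≤ c := by nlinarith [sq_nonneg (4 * r ^ 2 - 1 - c)]
      have e : (r ^ 2 / 1) ^ 2 / (1 - r ^ 2 / 1) / (2 * (r ^ 2 / (1 - r ^ 2))) = r ^ 2 / 2 := by
        field_simp
      have h3 : r ^ 2 / (1 - r ^ 2) * 1 ^ 2 * T / 2 ≤ 3 / 2 * r ^ 2 - α * r := by
        rw [one_pow, mul_one, div_mul_eq_mul_div, div_div, div_le_iff₀ (by positivity)]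
        have h4 : r ^ 2 * T ≤ r ^ 2 * (1 - α ^ 2) := by gcongr
        have h5 : 0 ≤ r * (r - α) * (2 * (1 - r ^ 2) - r * (r + α)) := by
          apply mul_nonneg (mul_nonneg r0.le (by linarith)); nlinarith
        nlinarith
      rw [e]; linarith
  have ap : 0 < α := lt_of_lt_of_le r0 h
  have px : 0 < 1 - α * r := by nlinarith
  have et : r ^ 2 / (r / α) = α * r := by field_simp
  have ht : r ^ 2 < r / α := by rw [lt_div_iff₀ ap]; nlinarith
  have hT2 : ∀ T, T * (1 - α ^ 2 * (r / α)) ≤ (1 - α ^ 2) ^ 2 → T ≤ (1 - α ^ 2) ^ 2 / (1 - α * r) :=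
    fun T hT => by
      rw [le_div_iff₀ px]
      rwa [show α ^ 2 * (r / α) = α * r by field_simp] at hT
  rcases le_or_gt (α * r) (4 * (1 - α ^ 2)) with h' | h'
  · have pa : 0 < 1 - α ^ 2 := by nlinarith [mul_pos ap r0]
    refine ⟨r / α, α ^ 2 / (1 - α ^ 2), by positivity, (div_le_one ap).2 h, ht, by positivity, ?_,
      fun T hT => ?_⟩
    · rw [show α ^ 2 / (1 - α ^ 2) * α * (r / α) ^ 2 = α * r * r / (1 - α ^ 2) by field_simp,
        div_le_iff₀ pa]
      nlinarith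
    · rw [et]
      calc _ ≤ α * r + α ^ 2 / (1 - α ^ 2) * (r / α) ^ 2 * ((1 - α ^ 2) ^ 2 / (1 - α * r)) / 2
            + (α * r) ^ 2 / (1 - α * r) / (2 * (α ^ 2 / (1 - α ^ 2))) := by
            gcongr; exact hT2 T hT
        _ = α * r + (r ^ 2 - (α * r) ^ 2) / (1 - α * r) := by field_simp; ring
        _ ≤ c := by
            rw [← le_sub_iff_add_le', div_le_iff₀ px]
            nlinarith [sq_nonneg (4 * (α * r) - 1 - c)]
  · refine ⟨r / α, 4 * α / r, by positivity, (div_le_one ap).2 h, ht, by positivity,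
      le_of_eq (by field_simp), fun T hT => ?_⟩
    have pa : 0 ≤ 1 - α ^ 2 := by nlinarith
    have a9 : 9 / 10 ≤ α := by nlinarith
    have pr : 0 < 1 - r := by linarith
    rw [et]
    calc _ ≤ α * r + 4 * α / r * (r / α) ^ 2 * ((α * r / 4 * (2 * (1 - α))) / (1 - r)) / 2
          + (α * r) ^ 2 / (1 - r) / (2 * (4 * α / r)) := by
          have q1 : 1 - r ≤ 1 - α * r := by nlinarith
          gcongr
          refine (hT2 T hT).trans ?_
          rw [sq (1 - α ^ 2)]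
          gcongr
          · linarith
          · nlinarith
      _ = α * r + (r ^ 2 * (1 - α) + α * r ^ 3 / 8) / (1 - r) := by field_simp; ring
      _ ≤ c := by
          rw [← le_sub_iff_add_le', div_le_iff₀ pr]
          have c2 : 5 / 42 + 12 / 7 * r ^ 2 ≤ c := by nlinarith [sq_nonneg (c - 2 / 3)]
          have r3 : α * r ^ 3 ≤ r ^ 3 := by nlinarith [pow_pos r0 3]
          have k1 : r ^ 3 / 8 ≤ (c - r) * (1 - r) := by
            rcases le_total r (47 / 100) with q | q <;> nlinarith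
          have k2 : r ^ 2 / 10 + r ^ 3 / 8 ≤ (c - 9 / 10 * r) * (1 - r) := by
            rcases le_total r (47 / 100) with q | q <;> nlinarith
          nlinarith [mul_le_mul_of_nonneg_left k1 (sub_nonneg.2 a9),
            mul_le_mul_of_nonneg_left k2 (sub_nonneg.2 a1)]

lemma amgm {x y l : ℝ} (hl : 0 < l) : x * y ≤ l * x ^ 2 / 2 + y ^ 2 / (2 * l) := by
  have : l * x ^ 2 / 2 + y ^ 2 / (2 * l) - x * y = (l * x - y) ^ 2 / (2 * l) := by
    field_simp; ring
  have h : 0 ≤ (l * x - y) ^ 2 / (2 * l) := by positivity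
  linarith

lemma tail {x : ℕ → ℝ} {r t l : ℝ} (t0 : 0 < t) (ht : r ^ 2 < t) (hl : 0 < l) (N : ℕ) :
    ∑ n ∈ range N, x n * r ^ (n + 2) ≤ l * t ^ 2 * (∑ n ∈ range N, t ^ n * x n ^ 2) / 2
      + (r ^ 2 / t) ^ 2 / (1 - r ^ 2 / t) / (2 * l) := by
  set s := r ^ 2 / t with hs
  have s0 : 0 ≤ s := by positivity
  have s1 : s < 1 := (div_lt_one t0).2 ht
  have h1 : ∀ n ∈ range N, x n * r ^ (n + 2)
      ≤ l * t ^ 2 * (t ^ n * x n ^ 2) / 2 + s ^ 2 * s ^ n / (2 * l) := fun n _ => by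
    have := amgm (x := x n) (y := r ^ (n + 2)) (l := l * t ^ (n + 2)) (by positivity)
    refine this.trans (le_of_eq ?_)
    rw [hs, div_pow, div_pow]
    field_simp
    ring
  refine (sum_le_sum h1).trans ?_
  rw [sum_add_distrib, ← sum_div, ← sum_div, ← mul_sum, ← mul_sum]
  have h2 : ∑ n ∈ range N, s ^ n ≤ (1 - s)⁻¹ :=
    sum_le_hasSum _ (fun n _ => pow_nonneg s0 n) (hasSum_geometric_of_lt_one s0 s1)
  rw [div_eq_mul_inv (s ^ 2) (1 - s)]
  gcongr

lemma core {h g : ℂ → ℂ} {a b : ℕ → ℂ} {k c r : ℝ} (ha : Cf h a) (hb : Cf g b) (a0 : a 0 = 0)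
    (b0 : b 0 = 0) (h1 : ∀ z ∈ ball (0 : ℂ) 1, ‖h z‖ ≤ 1) (k0 : 0 < k) (hc : c * (1 + k) = 1)
    (hg : ∀ z ∈ ball (0 : ℂ) 1, ‖deriv g z‖ ≤ k * ‖deriv h z‖) (c0 : 1 / 2 ≤ c) (c1 : c ≤ 1)
    (r0 : 0 < r) (hr : 8 * r ^ 2 ≤ 6 * c - 1 - c ^ 2) (N : ℕ) :
    ∑ n ∈ range (N + 2), (‖a n‖ + ‖b n‖) * r ^ n ≤ 1 := by
  obtain ⟨a1, hA⟩ := boundA ha a0 h1
  obtain ⟨t, l, t0, t1, ht, l0, hl, hT⟩ := numeric (norm_nonneg (a 1)) a1 r0 c0 c1 hr
  have D := dom hb.deriv (cf_mul ha.deriv k) (fun z hz => by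
    rw [norm_mul, Complex.norm_real, Real.norm_eq_abs, abs_of_pos k0]; exact hg z hz)
  have hn : ∀ n : ℕ, ‖(n : ℂ) + 1‖ = n + 1 := fun n => by
    rw [← Nat.cast_succ, Complex.norm_natCast]; push_cast; rfl
  have hx : ∀ M, 0 ≤ ∑ j ∈ range M,
      ((j : ℝ) + 1) ^ 2 * (k ^ 2 * ‖a (j + 1)‖ ^ 2 - ‖b (j + 1)‖ ^ 2) := fun M => by
    have := D M
    simp only [norm_mul, hn, Complex.norm_real, Real.norm_eq_abs, abs_of_pos k0] at this
    rw [← sub_nonneg, ← sum_sub_distrib] at this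
    exact this.trans (le_of_eq (sum_congr rfl fun j _ => by ring))
  have hβ : ‖b 1‖ ≤ k * ‖a 1‖ := by
    have := hx 1
    simp only [range_one, sum_singleton, Nat.cast_zero, zero_add, one_pow, one_mul] at this
    exact (abs_le_of_sq_le_sq' (by nlinarith) (by positivity)).2
  have hw := abel hx (w := fun j => Nat.casesOn j (t ^ 2 / 4)
    fun m => t ^ (m + 2) / ((m : ℝ) + 2) ^ 2) (fun n => ?_) (fun n => ?_) (N + 1)
  rotate_left
  · cases n with
    | zero => simp only [Nat.rec_zero, zero_add, Nat.cast_zero]; norm_num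
    | succ n =>
      simp only [Nat.cast_add, Nat.cast_one]
      gcongr ?_ / ?_
      · exact pow_le_pow_of_le_one t0.le t1 (by omega)
      · gcongr; linarith
  · cases n <;> simp only [Nat.rec_zero] <;> positivity
  rw [sum_range_succ'] at hw
  have e : ∑ j ∈ range N, (t ^ (j + 2) / ((j : ℝ) + 2) ^ 2) * ((((j + 1 : ℕ) : ℝ) + 1) ^ 2 *
      (k ^ 2 * ‖a (j + 1 + 1)‖ ^ 2 - ‖b (j + 1 + 1)‖ ^ 2))
      = t ^ 2 * (k ^ 2 * (∑ n ∈ range N, t ^ n * ‖a (n + 2)‖ ^ 2)
        - ∑ n ∈ range N, t ^ n * ‖b (n + 2)‖ ^ 2) := by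
    rw [mul_sum, ← sum_sub_distrib, mul_sum]
    refine sum_congr rfl fun j _ => ?_
    push_cast
    field_simp
    ring
  simp only [Nat.rec_zero, Nat.cast_zero, zero_add, one_pow, one_mul] at hw
  rw [e] at hw
  have ta := tail (x := fun n => ‖a (n + 2)‖) t0 ht l0 N
  have tb := tail (x := fun n => ‖b (n + 2)‖) t0 ht (div_pos l0 k0) N
  have fin := hT _ (hA t t0.le t1 N)
  set T := ∑ n ∈ range N, t ^ n * ‖a (n + 2)‖ ^ 2
  set U := ∑ n ∈ range N, t ^ n * ‖b (n + 2)‖ ^ 2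
  set C := (r ^ 2 / t) ^ 2 / (1 - r ^ 2 / t)
  rw [sum_range_succ', sum_range_succ']
  simp only [a0, b0, norm_zero, add_zero, zero_mul, zero_add, pow_one, add_mul, sum_add_distrib]
  have e2 : C / (2 * (l / k)) = k * (C / (2 * l)) := by field_simp
  have hU : l / k * t ^ 2 * U / 2 ≤ k * (l * t ^ 2 * T / 2) + (k * ‖a 1‖ - ‖b 1‖) * r := by
    have q1 : t ^ 2 * U ≤ t ^ 2 * k ^ 2 * T + t ^ 2 / 4 * (k ^ 2 * ‖a 1‖ ^ 2 - ‖b 1‖ ^ 2) := by
      linarith
    have q2 : l * (t ^ 2 / 4) * (k * ‖a 1‖ + ‖b 1‖) ≤ 2 * k * r := by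
      calc _ ≤ l * (t ^ 2 / 4) * (k * ‖a 1‖ + k * ‖a 1‖) := by gcongr
        _ = k / 2 * (l * ‖a 1‖ * t ^ 2) := by ring
        _ ≤ k / 2 * (4 * r) := by gcongr
        _ = _ := by ring
    have q3 := mul_le_mul_of_nonneg_left q2 (sub_nonneg.2 hβ)
    have q4 := mul_le_mul_of_nonneg_left q1 l0.le
    rw [show l / k * t ^ 2 * U / 2 = l * (t ^ 2 * U) / (2 * k) by field_simp,
      div_le_iff₀ (by positivity)]
    nlinarith
  rw [e2] at tb
  have fin2 := mul_le_mul_of_nonneg_right fin (by positivity : 0 ≤ 1 + k)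
  rw [hc] at fin2
  have ta' : ∑ n ∈ range N, ‖a (n + 1 + 1)‖ * r ^ (n + 1 + 1) ≤ _ := ta
  have tb' : ∑ n ∈ range N, ‖b (n + 1 + 1)‖ * r ^ (n + 1 + 1) ≤ _ := tb
  nlinarith

theorem result (K : ℝ) (hK : 1 < K) :
    (∀ h g a b, InF K h g a b → ∀ r, 0 ≤ r → r ≤ rK K → maj a b r ≤ supNorm h) ∧
    ∀ r, rK K < r → ∃ h g a b, InF K h g a b ∧ supNorm h < maj a b r := by
  set k := (K - 1) / (K + 1) with hk
  set c := (K + 1) / (2 * K) with hc
  have K0 : 0 < K := by linarith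
  have k0 : 0 < k := div_pos (by linarith) (by linarith)
  have hck : c * (1 + k) = 1 := by rw [hk, hc]; field_simp; ring
  have c0 : 1 / 2 < c := by rw [hc, lt_div_iff₀ (by positivity)]; linarith
  have c1 : c < 1 := by rw [hc, div_lt_one (by positivity)]; linarith
  have e0 : 7 / 2 - 1 / (2 * K ^ 2) + 5 / K = 2 * (6 * c - 1 - c ^ 2) := by
    rw [hc]; field_simp; ring
  have p0 : 0 < 6 * c - 1 - c ^ 2 := by nlinarith
  have hr2 : 8 * rK K ^ 2 = 6 * c - 1 - c ^ 2 := by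
    rw [rK, e0, mul_pow, Real.sq_sqrt (by positivity)]; ring
  have R0 : 0 < rK K := by rw [rK, e0]; positivity
  constructor
  · rintro h g a b ⟨hh, hg, a0, b0, ha, hb, ⟨M, hM⟩, hd⟩ r r0 r1
    have hfin : supNorm h ≠ ⊤ := by
      refine ne_top_of_le_ne_top (ENNReal.ofReal_ne_top (r := M)) (iSup₂_le fun z hz => ?_)
      rw [← ofReal_norm]; exact ENNReal.ofReal_le_ofReal (hM z hz)
    have hle : ∀ z ∈ ball (0 : ℂ) 1, ‖h z‖ ≤ (supNorm h).toReal := fun z hz => by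
      rw [← toReal_enorm]
      exact ENNReal.toReal_mono hfin (le_iSup₂ (f := fun z (_ : z ∈ ball (0 : ℂ) 1) => ‖h z‖ₑ) z hz)
    refine ENNReal.tsum_le_of_sum_range_le fun N => ?_
    rw [← ENNReal.ofReal_sum_of_nonneg fun n _ => by positivity, ← ENNReal.ofReal_toReal hfin]
    refine ENNReal.ofReal_le_ofReal ?_
    refine (sum_le_sum_of_subset_of_nonneg (range_subset_range.2 (Nat.le_add_right N 2))
      fun n _ _ => by positivity).trans ?_
    rcases r0.eq_or_lt with rfl | r0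
    · rw [sum_range_succ', sum_range_succ']
      simp [a0, b0]
    refine le_of_forall_gt_imp_ge_of_dense fun m hm => ?_
    have m0 : 0 < m := lt_of_le_of_lt ENNReal.toReal_nonneg hm
    have nm : ‖((m⁻¹ : ℝ) : ℂ)‖ = m⁻¹ := by
      rw [Complex.norm_real, Real.norm_eq_abs, abs_of_pos (inv_pos.2 m0)]
    have := core (cf_mul (cf_of hh ha) (m⁻¹ : ℝ)) (cf_mul (cf_of hg hb) (m⁻¹ : ℝ))
      (by simp [a0]) (by simp [b0]) (fun z hz => by
        rw [norm_mul, nm, inv_mul_le_iff₀ m0]; linarith [hle z hz]) k0 hck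
      (fun z hz => by
        rw [deriv_const_mul_field', deriv_const_mul_field']
        simp only [norm_mul, nm]
        have := mul_le_mul_of_nonneg_left (hd z hz) (inv_pos.2 m0).le
        linarith) c0.le c1.le r0 (by nlinarith) N
    simp only [norm_mul, nm, ← mul_add, mul_assoc, ← mul_sum] at this
    rwa [inv_mul_le_iff₀ m0, mul_one] at this
  · intro r hr
    set ρ := rK K
    set α := (1 + c) / (4 * ρ) with hα
    have α0 : 0 < α := by positivity
    have hx : α * ρ = (1 + c) / 4 := by rw [hα]; field_simp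
    have α1 : α < 1 := by
      rw [hα, div_lt_one (by positivity)]
      refine lt_of_pow_lt_pow_left₀ 2 (by positivity) ?_
      nlinarith
    set a : ℕ → ℂ := fun n => Nat.casesOn n 0 fun m => Nat.casesOn m α
      fun j => -(1 - α ^ 2 : ℝ) * α ^ j with ha
    set h : ℂ → ℂ := fun z => z * ((α - z) / (1 - α * z)) with hh
    have hz1 : ∀ z ∈ ball (0 : ℂ) 1, ‖α * z‖ < 1 := fun z hz => by
      rw [norm_mul, Complex.norm_real, Real.norm_eq_abs, abs_of_pos α0]
      nlinarith [mem_ball_zero_iff.1 hz, norm_nonneg z]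
    have hne : ∀ z ∈ ball (0 : ℂ) 1, 1 - α * z ≠ 0 := fun z hz e => by
      have := hz1 z hz
      rw [← sub_eq_zero.1 e] at this; simp at this
    have hd : DifferentiableOn ℂ h (ball 0 1) :=
      differentiableOn_id.mul ((differentiableOn_id.const_sub _).div
        ((differentiableOn_id.const_mul _).const_sub _) hne)
    have hs : ∀ z ∈ ball (0 : ℂ) 1, HasSum (fun n => a n * z ^ n) (h z) := fun z hz => by
      rw [← hasSum_nat_add_iff' 2]
      have := (hasSum_geometric_of_norm_lt_one (hz1 z hz)).mul_left (-(1 - α ^ 2 : ℝ) * z ^ 2)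
      have e1 : (fun n => a (n + 2) * z ^ (n + 2))
          = fun n => -((1 - α ^ 2 : ℝ) : ℂ) * z ^ 2 * (α * z) ^ n := by
        funext n; simp only [ha]; ring
      have e2 : h z - ∑ i ∈ range 2, a i * z ^ i
          = -((1 - α ^ 2 : ℝ) : ℂ) * z ^ 2 * (1 - α * z)⁻¹ := by
        have := hne z hz
        have q0 : a 0 = 0 := rfl
        have q1 : a 1 = α := rfl
        simp only [hh, sum_range_succ, Finset.range_zero, sum_empty, q0, q1]
        rw [← div_eq_mul_inv, eq_div_iff this, sub_mul, mul_assoc z, div_mul_cancel₀ _ this]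
        push_cast
        ring
      rw [e1, e2]; exact this
    have hb : ∀ z ∈ ball (0 : ℂ) 1, ‖h z‖ ≤ 1 := fun z hz => by
      have z1 := mem_ball_zero_iff.1 hz
      have : ‖(α - z) / (1 - α * z)‖ ≤ 1 := by
        rw [norm_div]
        refine div_le_one_of_le₀ (abs_le_of_sq_le_sq' ?_ (norm_nonneg _)).2 (norm_nonneg _)
        have e : normSq (1 - α * z) - normSq (α - z) = (1 - α ^ 2) * (1 - normSq z) := by
          simp only [normSq_apply, sub_re, sub_im, mul_re, mul_im, one_re, one_im, ofReal_re,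
            ofReal_im]
          ring
        simp only [normSq_eq_norm_sq] at e
        have p1 : 0 ≤ 1 - α ^ 2 := by nlinarith
        have p2 : 0 ≤ 1 - ‖z‖ ^ 2 := by nlinarith [norm_nonneg z]
        linarith [mul_nonneg p1 p2]
      rw [hh, norm_mul]
      nlinarith [norm_nonneg z, norm_nonneg ((α - z) / (1 - α * z))]
    have nk : ‖(k : ℂ)‖ = k := by rw [Complex.norm_real, Real.norm_eq_abs, abs_of_pos k0]
    refine ⟨h, fun z => k * h z, a, fun n => k * a n, ⟨hd, hd.const_mul _, rfl, by simp [ha], hs,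
      fun z hz => by simpa only [mul_assoc] using (hs z hz).mul_left (k : ℂ), ⟨1, hb⟩,
      fun z _ => by rw [deriv_const_mul_field', norm_mul, nk]⟩, ?_⟩
    have p1 : 0 ≤ 1 - α ^ 2 := by nlinarith
    have hsum : HasSum (fun n => (‖a n‖ + ‖k * a n‖) * ρ ^ n) 1 := by
      rw [← hasSum_nat_add_iff' 2]
      have x1 : α * ρ < 1 := by rw [hx]; linarith
      have := (hasSum_geometric_of_lt_one (by positivity) x1).mul_left
        ((1 + k) * (1 - α ^ 2) * ρ ^ 2)
      have e1 : (fun n => (‖a (n + 2)‖ + ‖k * a (n + 2)‖) * ρ ^ (n + 2))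
          = fun n => (1 + k) * (1 - α ^ 2) * ρ ^ 2 * (α * ρ) ^ n := by
        funext n
        simp only [ha, norm_mul, nk, norm_neg, norm_pow, Complex.norm_real, Real.norm_eq_abs,
          abs_of_pos α0, abs_of_nonneg p1]
        ring
      have e2 : 1 - ∑ i ∈ range 2, (‖a i‖ + ‖k * a i‖) * ρ ^ i
          = (1 + k) * (1 - α ^ 2) * ρ ^ 2 * (1 - α * ρ)⁻¹ := by
        have q0 : a 0 = 0 := rfl
        have q1 : a 1 = α := rfl
        simp only [q0, q1, sum_range_succ, Finset.range_zero, sum_empty, norm_mul, nk,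
          norm_zero, Complex.norm_real, Real.norm_eq_abs, abs_of_pos α0]
        rw [← div_eq_mul_inv, eq_div_iff (by linarith)]
        have e3 : (1 - α ^ 2) * ρ ^ 2 = (c - α * ρ) * (1 - α * ρ) := by
          rw [sub_mul, one_mul, ← mul_pow, hx]; linarith
        rw [mul_assoc (1 + k), e3]
        linear_combination (-(1 - α * ρ)) * hck
      rw [e1, e2]; exact this
    have h1 : maj a (fun n => k * a n) ρ = 1 := by
      rw [maj, ← ENNReal.ofReal_tsum_of_nonneg (fun n => by positivity) hsum.summable,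
        hsum.tsum_eq, ENNReal.ofReal_one]
    calc supNorm h ≤ 1 := iSup₂_le fun z hz => by
          rw [← ofReal_norm, ← ENNReal.ofReal_one]; exact ENNReal.ofReal_le_ofReal (hb z hz)
      _ = maj a (fun n => k * a n) ρ := h1.symm
      _ < _ := by
          refine ENNReal.tsum_lt_tsum (i := 1) (by rw [← maj, h1]; simp)
            (fun n => ENNReal.ofReal_le_ofReal (by gcongr)) ?_
          have : 0 < ‖a 1‖ + ‖k * a 1‖ := by
            have : ‖a 1‖ = α := by simp [ha, abs_of_pos α0]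
            linarith [norm_nonneg (k * a 1)]
          refine (ENNReal.ofReal_lt_ofReal_iff_of_nonneg (by positivity)).2 ?_
          simp only [pow_one]
          gcongr

end Pool.Agent.Results.MP_8fe0b8_an.Holds
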